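import Pool.Agent.E8helper49.PC.Stm

/-!
# Project PC, piece STEPB: the primes above `3` with even ramification index
-/

set_option autoImplicit false

namespace Pool.Agent.E8helper67.PC

open NumberField Ideal Pool.Agent.E8helper49.PC

/-- counting in fibres of odd cardinality -/
theorem even_card {X Y : Type} [Finite Y] (f : X → Y)
    (h : ∀ y, Odd (Nat.card {x : X // f x = y})) : Even (Nat.card X + Nat.card Y) := by
  have : Fintype Y := Fintype.ofFinite Y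
  have hfin : ∀ y, Finite {x : X // f x = y} := fun y =>
    Nat.finite_of_card_ne_zero (h y).pos.ne'
  have e1 : Nat.card X = ∑ y : Y, Nat.card {x : X // f x = y} := by
    rw [← Nat.card_sigma]
    exact Nat.card_congr (Equiv.sigmaFiberEquiv f).symm
  have e2 : Nat.card Y = ∑ _y : Y, 1 := by simp
  rw [e1, e2, ← Finset.sum_add_distrib]
  exact Finset.even_sum _ fun y _ => (h y).add_odd odd_one

section

variable {K L : Type} [Field K] [NumberField K] [Field L] [NumberField L] [Algebra K L]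
  [IsGalois K L]

/-- numbers of the primes above `P` and ramification indices in a Galois extension of odd degree -/
theorem odd_over (hodd : Odd (Module.finrank K L)) (P : Ideal (𝓞 K)) (hP : P.IsPrime) :
    Odd (primesOver P (𝓞 L)).ncard ∧
    ∀ Q ∈ primesOver P (𝓞 L), Odd (Q.ramificationIdx (𝓞 K)) := by
  have h := ncard_primesOver_mul_ramificationIdxIn_mul_inertiaDegIn P (𝓞 L) Gal(L/K)
  rw [IsGaloisGroup.card_eq_finrank Gal(L/K) K L] at h
  rw [← h] at hodd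
  obtain ⟨h1, h2⟩ := Nat.odd_mul.1 hodd
  obtain ⟨h3, h4⟩ := Nat.odd_mul.1 h2
  refine ⟨h1, fun Q hQ => ?_⟩
  have : Q.IsPrime := hQ.1
  have : Q.LiesOver P := hQ.2
  rwa [ramificationIdxIn_eq_ramificationIdx P Q Gal(L/K)] at h3

end

theorem t_STEPB : S_STEPB := by
  intro K L _ _ _ _ _ _ hodd
  have key : ∀ Q : Ideal (𝓞 L), Q.IsPrime →
      (Even (Q.ramificationIdx ℤ) ↔ Even ((Q.under (𝓞 K)).ramificationIdx ℤ)) := by
    intro Q hQ
    have hP : (Q.under (𝓞 K)).IsPrime := inferInstance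
    have h1 := (odd_over (L := L) hodd (Q.under (𝓞 K)) hP).2 Q ⟨hQ, inferInstance⟩
    rw [ramificationIdx_tower (R := ℤ) (Q.under (𝓞 K)) Q, Nat.even_mul]
    simp [Nat.not_even_iff_odd.2 h1]
  have h3 : ∀ Q : Ideal (𝓞 L), (3 : 𝓞 L) ∈ Q ↔ (3 : 𝓞 K) ∈ Q.under (𝓞 K) := by
    intro Q
    rw [Ideal.under_def, Ideal.mem_comap, map_ofNat]
  have hfin : Finite {P : Ideal (𝓞 K) // P.IsPrime ∧ (3 : 𝓞 K) ∈ P ∧
      Even (P.ramificationIdx ℤ)} := by
    have hmax : (span {(3 : ℤ)}).IsMaximal := by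
      have : Fact (Nat.Prime 3) := ⟨Nat.prime_three⟩
      exact_mod_cast Int.ideal_span_isMaximal_of_prime 3
    have hF : (primesOver (span {(3 : ℤ)}) (𝓞 K)).Finite := Algebra.QuasiFinite.finite_primesOver _
    refine Set.Finite.to_subtype (s := {P : Ideal (𝓞 K) | P.IsPrime ∧ (3 : 𝓞 K) ∈ P ∧
      Even (P.ramificationIdx ℤ)}) (hF.subset ?_)
    rintro P ⟨h1, h2, -⟩
    refine ⟨h1, ⟨hmax.eq_of_le (IsPrime.under ℤ P).ne_top ?_⟩⟩
    rw [Ideal.span_singleton_le_iff_mem, Ideal.under_def, Ideal.mem_comap, map_ofNat]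
    exact h2
  let f : {Q : Ideal (𝓞 L) // Q.IsPrime ∧ (3 : 𝓞 L) ∈ Q ∧ Even (Q.ramificationIdx ℤ)} →
      {P : Ideal (𝓞 K) // P.IsPrime ∧ (3 : 𝓞 K) ∈ P ∧ Even (P.ramificationIdx ℤ)} :=
    fun Q => ⟨Q.1.under (𝓞 K), by
      have := Q.2.1
      infer_instance, (h3 Q.1).1 Q.2.2.1, (key Q.1 Q.2.1).1 Q.2.2.2⟩
  refine even_card f fun P => ?_
  have h5 := (odd_over (L := L) hodd P.1 P.2.1).1
  rw [← Nat.card_coe_set_eq] at h5
  convert h5 using 1
  refine Nat.card_congr ?_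
  refine ⟨fun Q => ⟨Q.1.1, Q.1.2.1, ⟨(congrArg Subtype.val Q.2).symm⟩⟩,
    fun Q => ⟨⟨Q.1, Q.2.1, ?_, ?_⟩, ?_⟩, fun Q => rfl, fun Q => rfl⟩
  · rw [h3, ← Q.2.2.over]
    exact P.2.2.1
  · rw [key Q.1 Q.2.1, ← Q.2.2.over]
    exact P.2.2.2
  · exact Subtype.ext Q.2.2.over.symm

end Pool.Agent.E8helper67.PC
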